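import Mathlib

namespace Pool.Agent.Results.MP_cb32b9_nt.Bose

/-- The Bose set: residues `a` modulo `q ^ 2 - 1` with `θ ^ a = θ + v` for some `v` in the
subfield `{v | v ^ q = v}` of `q` elements. -/
def bose {F : Type*} [Field F] (q : ℕ) (θ : F) : Set (ZMod (q ^ 2 - 1)) :=
  {a | ∃ v : F, v ^ q = v ∧ θ ^ a.val = θ + v}

def U {F : Type*} [Field F] (a b : F) : ℕ → F
  | 0 => 0
  | 1 => 1
  | n + 2 => a * U a b (n + 1) - b * U a b n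

lemma pow_eq {F : Type*} [Field F] {a b x : F} (h : x ^ 2 = a * x - b) :
    ∀ n, x ^ (n + 1) = U a b (n + 1) * x - b * U a b n
  | 0 => by simp [U]
  | n + 1 => by
    rw [pow_succ, pow_eq h n, U]; linear_combination U a b (n + 1) * h

lemma elim {F : Type*} [Field F] {g h : F} (hgh : g ≠ h) (hg : g ≠ 1) (hh : h ≠ 1)
    (H : ∀ t ∈ ({4, 10, 23, 25} : Set ℕ), ∃ l, g ^ t - 1 = l * (g - 1) ∧ h ^ t - 1 = l * (h - 1)) :
    False := by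
  have K : ∀ t, t + 1 ∈ ({4, 10, 23, 25} : Set ℕ) →
      U (g + h) (g * h) (t + 1) - g * h * U (g + h) (g * h) t = 1 := by
    intro t ht
    obtain ⟨l, h1, h2⟩ := H _ ht
    rw [pow_eq (a := g + h) (b := g * h) (by ring)] at h1 h2
    have : U (g + h) (g * h) (t + 1) = l :=
      mul_right_cancel₀ (sub_ne_zero.2 hgh) (by linear_combination h1 - h2)
    linear_combination h1 - (g - 1) * this
  have h0 : 1 - (g + h) + g * h ≠ 0 := by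
    rw [show 1 - (g + h) + g * h = (g - 1) * (h - 1) by ring]
    exact mul_ne_zero (sub_ne_zero.2 hg) (sub_ne_zero.2 hh)
  have e4 := K 3 (by simp)
  have e10 := K 9 (by simp)
  have e23 := K 22 (by simp)
  have e25 := K 24 (by simp)
  generalize g + h = a at *
  generalize g * h = b at *
  obtain rfl : b = a ^ 2 + a + 1 := mul_left_cancel₀ h0 (by
    simp only [U] at e4
    linear_combination e4)
  have u0 : U a (a ^ 2 + a + 1) 0 = 0 := rfl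
  have u1 : U a (a ^ 2 + a + 1) 1 = 1 := rfl
  have u2 : U a (a ^ 2 + a + 1) 2 =
      a := by
    rw [U, u1, u0]; ring
  have u3 : U a (a ^ 2 + a + 1) 3 =
      -1 - a := by
    rw [U, u2, u1]; ring
  have u4 : U a (a ^ 2 + a + 1) 4 =
      -2 * a - 2 * a ^ 2 - a ^ 3 := by
    rw [U, u3, u2]; ring
  have u5 : U a (a ^ 2 + a + 1) 5 =
      1 + 2 * a - a ^ 3 - a ^ 4 := by
    rw [U, u4, u3]; ring
  have u6 : U a (a ^ 2 + a + 1) 6 =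
      3 * a + 6 * a ^ 2 + 5 * a ^ 3 + 2 * a ^ 4 := by
    rw [U, u5, u4]; ring
  have u7 : U a (a ^ 2 + a + 1) 7 =
      -1 - 3 * a + 5 * a ^ 3 + 7 * a ^ 4 + 4 * a ^ 5 + a ^ 6 := by
    rw [U, u6, u5]; ring
  have u8 : U a (a ^ 2 + a + 1) 8 =
      -4 * a - 12 * a ^ 2 - 14 * a ^ 3 - 8 * a ^ 4 + 2 * a ^ 6 + a ^ 7 := by
    rw [U, u7, u6]; ring
  have u9 : U a (a ^ 2 + a + 1) 9 =
      1 + 4 * a - 14 * a ^ 3 - 26 * a ^ 4 - 24 * a ^ 5 - 12 * a ^ 6 - 3 * a ^ 7 := by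
    rw [U, u8, u7]; ring
  have u10 : U a (a ^ 2 + a + 1) 10 =
      5 * a + 20 * a ^ 2 + 30 * a ^ 3 + 20 * a ^ 4 - 4 * a ^ 5 - 18 * a ^ 6 - 15 * a ^ 7 - 6 * a ^
      8 - a ^ 9 := by
    rw [U, u9, u8]; ring
  have u11 : U a (a ^ 2 + a + 1) 11 =
      -1 - 5 * a + 30 * a ^ 3 + 70 * a ^ 4 + 84 * a ^ 5 + 58 * a ^ 6 + 21 * a ^ 7 - 3 * a ^ 9 - a
      ^ 10 := by
    rw [U, u10, u9]; ring
  have u12 : U a (a ^ 2 + a + 1) 12 =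
      -6 * a - 30 * a ^ 2 - 55 * a ^ 3 - 40 * a ^ 4 + 24 * a ^ 5 + 86 * a ^ 6 + 95 * a ^ 7 + 60 *
      a ^ 8 + 22 * a ^ 9 + 4 * a ^ 10 := by
    rw [U, u11, u10]; ring
  have u13 : U a (a ^ 2 + a + 1) 13 =
      1 + 6 * a - 55 * a ^ 3 - 155 * a ^ 4 - 224 * a ^ 5 - 188 * a ^ 6 - 77 * a ^ 7 + 16 * a ^ 8 +
      42 * a ^ 9 + 26 * a ^ 10 + 8 * a ^ 11 + a ^ 12 := by
    rw [U, u12, u11]; ring
  have u14 : U a (a ^ 2 + a + 1) 14 =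
      7 * a + 42 * a ^ 2 + 91 * a ^ 3 + 70 * a ^ 4 - 84 * a ^ 5 - 294 * a ^ 6 - 393 * a ^ 7 - 318
      * a ^ 8 - 161 * a ^ 9 - 44 * a ^ 10 + 4 * a ^ 12 + a ^ 13 := by
    rw [U, u13, u12]; ring
  have u15 : U a (a ^ 2 + a + 1) 15 =
      -1 - 7 * a + 91 * a ^ 3 + 301 * a ^ 4 + 504 * a ^ 5 + 483 * a ^ 6 + 195 * a ^ 7 - 144 * a ^
      8 - 299 * a ^ 9 - 245 * a ^ 10 - 120 * a ^ 11 - 35 * a ^ 12 - 5 * a ^ 13 := by
    rw [U, u14, u13]; ring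
  have u16 : U a (a ^ 2 + a + 1) 16 =
      -8 * a - 56 * a ^ 2 - 140 * a ^ 3 - 112 * a ^ 4 + 224 * a ^ 5 + 812 * a ^ 6 + 1254 * a ^ 7 +
      1200 * a ^ 8 + 728 * a ^ 9 + 224 * a ^ 10 - 40 * a ^ 11 - 80 * a ^ 12 - 40 * a ^ 13 - 10 * a
      ^ 14 - a ^ 15 := by
    rw [U, u15, u14]; ring
  have u17 : U a (a ^ 2 + a + 1) 17 =
      1 + 8 * a - 140 * a ^ 3 - 532 * a ^ 4 - 1008 * a ^ 5 - 1064 * a ^ 6 - 370 * a ^ 7 + 720 * a
      ^ 8 + 1448 * a ^ 9 + 1416 * a ^ 10 + 888 * a ^ 11 + 360 * a ^ 12 + 80 * a ^ 13 - 5 * a ^ 15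
      - a ^ 16 := by
    rw [U, u16, u15]; ring
  have u18 : U a (a ^ 2 + a + 1) 18 =
      9 * a + 72 * a ^ 2 + 204 * a ^ 3 + 168 * a ^ 4 - 504 * a ^ 5 - 1932 * a ^ 6 - 3354 * a ^ 7 -
      3636 * a ^ 8 - 2462 * a ^ 9 - 704 * a ^ 10 + 504 * a ^ 11 + 784 * a ^ 12 + 520 * a ^ 13 +
      210 * a ^ 14 + 51 * a ^ 15 + 6 * a ^ 16 := by
    rw [U, u17, u16]; ring
  have u19 : U a (a ^ 2 + a + 1) 19 =
      -1 - 9 * a + 204 * a ^ 3 + 876 * a ^ 4 + 1848 * a ^ 5 + 2100 * a ^ 6 + 510 * a ^ 7 - 2640 *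
      a ^ 8 - 5434 * a ^ 9 - 6046 * a ^ 10 - 4456 * a ^ 11 - 2160 * a ^ 12 - 544 * a ^ 13 + 80 * a
      ^ 14 + 135 * a ^ 15 + 57 * a ^ 16 + 12 * a ^ 17 + a ^ 18 := by
    rw [U, u18, u17]; ring
  have u20 : U a (a ^ 2 + a + 1) 20 =
      -10 * a - 90 * a ^ 2 - 285 * a ^ 3 - 240 * a ^ 4 + 1008 * a ^ 5 + 4116 * a ^ 6 + 7890 * a ^
      7 + 9432 * a ^ 8 + 6812 * a ^ 9 + 1368 * a ^ 10 - 3384 * a ^ 11 - 5040 * a ^ 12 - 3968 * a ^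
      13 - 2058 * a ^ 14 - 701 * a ^ 15 - 132 * a ^ 16 + 6 * a ^ 18 + a ^ 19 := by
    rw [U, u19, u18]; ring
  have u21 : U a (a ^ 2 + a + 1) 21 =
      1 + 10 * a - 285 * a ^ 3 - 1365 * a ^ 4 - 3168 * a ^ 5 - 3816 * a ^ 6 - 342 * a ^ 7 + 7920 *
      a ^ 8 + 16996 * a ^ 9 + 20932 * a ^ 10 + 17304 * a ^ 11 + 9278 * a ^ 12 + 2120 * a ^ 13 -
      1344 * a ^ 14 - 1729 * a ^ 15 - 973 * a ^ 16 - 336 * a ^ 17 - 70 * a ^ 18 - 7 * a ^ 19 := by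
    rw [U, u20, u19]; ring
  have u22 : U a (a ^ 2 + a + 1) 22 =
      11 * a + 110 * a ^ 2 + 385 * a ^ 3 + 330 * a ^ 4 - 1848 * a ^ 5 - 8052 * a ^ 6 - 16830 * a ^
      7 - 21780 * a ^ 8 - 16214 * a ^ 9 - 616 * a ^ 10 + 16136 * a ^ 11 + 24360 * a ^ 12 + 21670 *
      a ^ 13 + 13186 * a ^ 14 + 5383 * a ^ 15 + 1162 * a ^ 16 - 140 * a ^ 17 - 210 * a ^ 18 - 77 *
      a ^ 19 - 14 * a ^ 20 - a ^ 21 := by
    rw [U, u21, u20]; ring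
  have u23 : U a (a ^ 2 + a + 1) 23 =
      -1 - 11 * a + 385 * a ^ 3 + 2035 * a ^ 4 + 5148 * a ^ 5 + 6501 * a ^ 6 - 726 * a ^ 7 - 20592
      * a ^ 8 - 46354 * a ^ 9 - 62062 * a ^ 10 - 55848 * a ^ 11 - 31378 * a ^ 12 - 4342 * a ^ 13 +
      11616 * a ^ 14 + 14139 * a ^ 15 + 9429 * a ^ 16 + 4200 * a ^ 17 + 1239 * a ^ 18 + 203 * a ^
      19 - 7 * a ^ 21 - a ^ 22 := by
    rw [U, u22, u21]; ring
  have u24 : U a (a ^ 2 + a + 1) 24 =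
      -12 * a - 132 * a ^ 2 - 506 * a ^ 3 - 440 * a ^ 4 + 3168 * a ^ 5 + 14718 * a ^ 6 + 33231 * a
      ^ 7 + 45936 * a ^ 8 + 34232 * a ^ 9 - 7744 * a ^ 10 - 61368 * a ^ 11 - 95728 * a ^ 12 -
      93544 * a ^ 13 - 63558 * a ^ 14 - 28623 * a ^ 15 - 5592 * a ^ 16 + 3024 * a ^ 17 + 3388 * a
      ^ 18 + 1666 * a ^ 19 + 504 * a ^ 20 + 92 * a ^ 21 + 8 * a ^ 22 := by
    rw [U, u23, u22]; ring
  have u25 : U a (a ^ 2 + a + 1) 25 =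
      1 + 12 * a - 506 * a ^ 3 - 2926 * a ^ 4 - 8008 * a ^ 5 - 10516 * a ^ 6 + 3795 * a ^ 7 +
      48048 * a ^ 8 + 113608 * a ^ 9 + 163240 * a ^ 10 + 156520 * a ^ 11 + 87920 * a ^ 12 - 4160 *
      a ^ 13 - 69440 * a ^ 14 - 84971 * a ^ 15 - 63807 * a ^ 16 - 33360 * a ^ 17 - 11844 * a ^ 18
      - 2254 * a ^ 19 + 224 * a ^ 20 + 308 * a ^ 21 + 100 * a ^ 22 + 16 * a ^ 23 + a ^ 24 := by
    rw [U, u24, u23]; ring
  rw [u10, u9] at e10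
  rw [u23, u22] at e23
  rw [u25, u24] at e25
  exact h0 (by
    linear_combination -(13167586430 + 142108404649 * a + 760537804249 * a ^ 2 + 566245867221 * a ^ 3 - 8479030892813
      * a ^ 4 - 39953728068045 * a ^ 5 - 93328639252833 * a ^ 6 - 130962250388245 * a ^ 7 -
      93623761771722 * a ^ 8 + 38855307228687 * a ^ 9 + 206745020523505 * a ^ 10 + 310474857411645
      * a ^ 11 + 297251445683294 * a ^ 12 + 199424448636621 * a ^ 13 + 91096948005259 * a ^ 14 +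
      22333015861936 * a ^ 15 - 3071377185581 * a ^ 16 - 5471569017504 * a ^ 17 - 2458163431184 *
      a ^ 18 - 582300939474 * a ^ 19 - 63392374806 * a ^ 20) * e10 -
      (-13167586429 + 2735046010 * a + 104772566473 * a ^ 2 + 241589360045 * a ^ 3 + 292176809607 *
      a ^ 4 + 202664109471 * a ^ 5 + 76413631167 * a ^ 6 + 10463989559 * a ^ 7 - 2173040480 * a ^
      8 + 451556697 * a ^ 9 - 93721596 * a ^ 10 + 19495863 * a ^ 11 - 4038350 * a ^ 12 + 843240 *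
      a ^ 13 - 173422 * a ^ 14 + 36694 * a ^ 15 - 7367 * a ^ 16 + 1632 * a ^ 17 - 300 * a ^ 18 +
      77 * a ^ 19 - 7 * a ^ 20 + 7 * a ^ 21) * e23 -
      (-5 + a - 5 * a ^ 2 - 2 * a ^ 3 + a ^ 4 + 5 * a ^ 5 + 6 * a ^ 6 - 3 * a ^ 7 - 5 * a ^ 8 - 3 *
      a ^ 9 - 4 * a ^ 10 - 6 * a ^ 11 + 5 * a ^ 12 + 6 * a ^ 13 - 2 * a ^ 14 - 3 * a ^ 15 - 2 * a
      ^ 18 + a ^ 19 + a ^ 20) * e25)

theorem result (q : ℕ) (F : Type*) [Field F] [Fintype F] (hF : Fintype.card F = q ^ 2) (θ : F)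
    (hθ : orderOf θ = q ^ 2 - 1) (m : ℤ) (s : ZMod (q ^ 2 - 1)) :
    ¬ ∀ t ∈ ({0, 1, 4, 10, 18, 23, 25} : Set ℕ),
      ∃ a ∈ bose q θ, (t : ZMod (q ^ 2 - 1)) = (m : ZMod (q ^ 2 - 1)) * a + s := by
  intro H
  obtain ⟨p, hc, n, hp, hn⟩ := FiniteField.card' F
  have := Fact.mk hp
  obtain ⟨k, -, hk⟩ := (Nat.dvd_prime_pow hp).1 (⟨q, by rw [← hn, hF, sq]⟩ : q ∣ p ^ (n : ℕ))
  have hq : 2 ≤ q := by
    by_contra h
    have := Fintype.one_lt_card (α := F)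
    interval_cases q <;> omega
  have hq2 : 2 * q ≤ q ^ 2 := by nlinarith
  have : Fact (1 < q ^ 2 - 1) := ⟨by omega⟩
  have fr : ∀ x y : F, (x - y) ^ q = x ^ q - y ^ q := fun x y => by
    rw [hk, sub_pow_char_pow]
  have θ0 : θ ≠ 0 := by
    rintro rfl
    rw [orderOf_zero] at hθ
    omega
  have ea : ∀ a b : ZMod (q ^ 2 - 1), θ ^ (a + b).val = θ ^ a.val * θ ^ b.val := fun a b => by
    rw [ZMod.val_add, ← pow_add, ← pow_mod_orderOf θ (a.val + b.val), hθ]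
  have en : ∀ (d : ZMod (q ^ 2 - 1)) (t : ℕ), θ ^ (t * d).val = (θ ^ d.val) ^ t := fun d t => by
    induction t with
    | zero => simp
    | succ t ih => rw [Nat.cast_succ, add_mul, one_mul, ea, ih]; ring
  obtain ⟨a₀, ⟨v₀, hv₀, e₀⟩, f₀⟩ := H 0 (by simp)
  obtain ⟨a₁, ⟨v₁, hv₁, e₁⟩, f₁⟩ := H 1 (by simp)
  have hm : (m : ZMod (q ^ 2 - 1)) * (a₁ - a₀) = 1 := by
    push_cast at f₀ f₁; linear_combination f₀ - f₁
  have hθg : (θ ^ (a₁ - a₀).val) ^ (m : ZMod (q ^ 2 - 1)).val = θ := by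
    rw [← en, ZMod.natCast_zmod_val, hm, ZMod.val_one, pow_one]
  have e₁' : θ ^ a₀.val * θ ^ (a₁ - a₀).val = θ + v₁ := by rw [← ea, add_sub_cancel, e₁]
  have et : ∀ t ∈ ({4, 10, 23, 25} : Set ℕ),
      ∃ v, v ^ q = v ∧ θ ^ a₀.val * (θ ^ (a₁ - a₀).val) ^ t = θ + v := by
    intro t ht
    obtain ⟨a, ⟨v, hv, e⟩, f⟩ := H t (by
      simp only [Set.mem_insert_iff, Set.mem_singleton_iff] at ht ⊢; omega)
    refine ⟨v, hv, ?_⟩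
    rw [← en, ← ea, ← e]
    congr 2
    push_cast at f₀
    linear_combination (a₁ - a₀) * (f - f₀) + (a - a₀) * hm
  generalize θ ^ (a₁ - a₀).val = g at *
  have c0 : θ ^ a₀.val ≠ 0 := pow_ne_zero _ θ0
  generalize θ ^ a₀.val = c at *
  have hgq : g ≠ g ^ q := by
    intro h
    have h1 : θ ^ q = θ := by rw [← hθg, ← pow_mul, mul_comm, pow_mul, ← h]
    have h2 : θ ^ (q - 1) = 1 := mul_right_cancel₀ θ0 (by
      rw [← pow_succ, Nat.sub_add_cancel (by omega), h1, one_mul])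
    have := Nat.le_of_dvd (by omega) (orderOf_dvd_of_pow_eq_one h2)
    omega
  have g1 : g ≠ 1 := by
    rintro rfl
    exact hgq (one_pow q).symm
  refine elim hgq g1 (fun h => g1 ?_) fun t ht => ?_
  · have := fr g 1
    rw [h, one_pow, sub_self] at this
    exact sub_eq_zero.1 (pow_eq_zero_iff (by omega) |>.1 this)
  obtain ⟨v, hv, e⟩ := et t ht
  have w0 : v₁ - v₀ ≠ 0 := by
    rw [show v₁ - v₀ = c * (g - 1) by linear_combination e₀ - e₁']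
    exact mul_ne_zero c0 (sub_ne_zero.2 g1)
  have e2 : g ^ t - 1 = (v - v₀) / (v₁ - v₀) * (g - 1) := by
    field_simp
    linear_combination (g ^ t - 1) * (e₀ - e₁') - (g - 1) * (e₀ - e)
  refine ⟨_, e2, ?_⟩
  have := congrArg (· ^ q) e2
  simp only [mul_pow, div_pow, fr, one_pow, hv, hv₀, hv₁] at this
  rw [← this, ← pow_mul, ← pow_mul, mul_comm]

end Pool.Agent.Results.MP_cb32b9_nt.Bose
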